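import Mathlib
import Pool.Agent.Helper20.RGDefs
import Pool.Agent.Helper20.RGLast

set_option autoImplicit false

namespace Pool.Agent.Results.MP_e5dbd3_co.PointArboricityBound

open Pool.Agent.Helper20.ReducedGenus

/-- A finite simple graph `G` of reduced genus `g` with clique number at least `2000 g + 2000`
has point arboricity at most `1 + ⌊ω(G) / 2⌋`. -/
theorem result (g : ℕ) {V : Type*} [Fintype V] (G : SimpleGraph V) (hg : reducedGenus G = g)
    (hω : 2000 * g + 2000 ≤ G.cliqueNum) : pointArboricity G ≤ 1 + G.cliqueNum / 2 :=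
  Pool.Agent.Helper20.RG.main G (hg ▸ hω)

end Pool.Agent.Results.MP_e5dbd3_co.PointArboricityBound
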